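import Pool.Agent.Lib.MP_f146a9_al.DV.Rel

/-! The homomorphism from the Artin group of type A_n to the Burau matrices at t = -1. -/

namespace Pool.Agent.Lib.MP_f146a9_al.DV

private theorem altProd_map {G H : Type*} [Group G] [Group H] (f : G →* H) (m : ℕ) (a b : G) :
    f (altProd a b m) = altProd (f a) (f b) m := by
  induction m generalizing a b with
  | zero => exact map_one f
  | succ m ih =>
    change f (a * altProd b a m) = f a * altProd (f b) (f a) m
    rw [map_mul, ih]

private def gu {n : ℕ} (i : Fin n) : (Mat n)ˣ where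
  val := gen i 1
  inv := gen i (-1)
  val_inv := by rw [gen_mul, add_neg_cancel, gen_zero]
  inv_val := by rw [gen_mul, neg_add_cancel, gen_zero]

private theorem gu_zpow {n : ℕ} (i : Fin n) (k : ℤ) : (((gu i) ^ k : (Mat n)ˣ) : Mat n) = gen i k := by
  induction k using Int.induction_on with
  | zero =>
    rw [zpow_zero, Units.val_one, Int.cast_zero, gen_zero]
  | succ k ih =>
    rw [zpow_add_one, Units.val_mul, ih]
    change gen i _ * gen i 1 = _
    rw [gen_mul]
    push_cast
    rfl
  | pred k ih =>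
    rw [zpow_sub_one, Units.val_mul, ih]
    change gen i _ * gen i (-1) = _
    rw [gen_mul]
    push_cast
    rw [sub_eq_add_neg]

private theorem gu_alt {n : ℕ} (i j : Fin n) :
    altProd (gu i) (gu j) (CoxeterMatrix.A n i j) = altProd (gu j) (gu i) (CoxeterMatrix.A n i j) := by
  have h1 : CoxeterMatrix.A n i j = if i = j then 1 else (if (j : ℕ) + 1 = i ∨ (i : ℕ) + 1 = j then 3 else 2) := rfl
  rw [h1]
  by_cases h2 : i = j
  · rw [h2]
  · rw [if_neg h2]
    by_cases h3 : (j : ℕ) + 1 = i ∨ (i : ℕ) + 1 = j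
    · rw [if_pos h3]
      refine Units.ext ?_
      change gen i 1 * (gen j 1 * (gen i 1 * 1)) = gen j 1 * (gen i 1 * (gen j 1 * 1))
      rw [mul_one, mul_one, ← mul_assoc, ← mul_assoc]
      exact gen_braid i j h3
    · rw [if_neg h3]
      refine Units.ext ?_
      change gen i 1 * (gen j 1 * 1) = gen j 1 * (gen i 1 * 1)
      rw [mul_one, mul_one]
      exact gen_comm i j h2 (fun h4 => h3 (Or.inl h4)) fun h4 => h3 (Or.inr h4)

theorem exists_hom (n : ℕ) : ∃ ρ : ArtinGroup (CoxeterMatrix.A n) →* (Mat n)ˣ, ∀ (i : Fin n) (k : ℤ),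
    ((ρ ((PresentedGroup.of i : ArtinGroup (CoxeterMatrix.A n)) ^ k) : (Mat n)ˣ) : Mat n) = gen i k := by
  have h1 : ∀ r ∈ artinRels (CoxeterMatrix.A n), FreeGroup.lift (gu (n := n)) r = 1 := by
    rintro r ⟨i, j, _, rfl⟩
    rw [map_mul, map_inv, altProd_map, altProd_map, FreeGroup.lift_apply_of, FreeGroup.lift_apply_of, gu_alt, mul_inv_cancel]
  refine ⟨PresentedGroup.toGroup h1, fun i k => ?_⟩
  rw [map_zpow, PresentedGroup.toGroup.of, gu_zpow]

end Pool.Agent.Lib.MP_f146a9_al.DV
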