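import Mathlib

namespace Pool.Agent.Lib.MP_f146a9_al.DV

private theorem PermF_cube {α : Type*} [DecidableEq α] {a b c : α} (hab : a ≠ b) (hbc : b ≠ c)
    (hac : a ≠ c) : (Equiv.swap a b * Equiv.swap b c) ^ 3 = 1 := by
  ext x
  simp only [pow_succ, pow_zero, one_mul, Equiv.Perm.mul_apply, Equiv.Perm.one_apply,
    Equiv.swap_apply_def]
  by_cases ha : x = a
  · subst ha
    simp [hab, hac, hab.symm, hbc.symm, hac.symm]
  · by_cases hb : x = b
    · subst hb
      simp [hab, hac, hab.symm, hbc.symm, hac.symm]
    · by_cases hc : x = c
      · subst hc
        simp [hab, hac, hab.symm, hbc.symm, hac.symm]
      · simp [ha, hb, hc]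

end Pool.Agent.Lib.MP_f146a9_al.DV

theorem Pool.Agent.Lib.MP_f146a9_al.DV.exists_perm {n : ℕ} {W : Type*} [Group W]
    (cs : CoxeterSystem (CoxeterMatrix.A n) W) :
    ∃ f : W →* Equiv.Perm (Fin (n + 1)), ∀ i : Fin n, f (cs.simple i) = Equiv.swap i.castSucc i.succ := by
  have hf : (CoxeterMatrix.A n).IsLiftable
      (fun i : Fin n => (Equiv.swap i.castSucc i.succ : Equiv.Perm (Fin (n + 1)))) := by
    intro i j
    have hM : (CoxeterMatrix.A n) i j = if i = j then 1
      else (if (j : ℕ) + 1 = i ∨ (i : ℕ) + 1 = j then 3 else 2) := rfl
    rw [hM]
    show (Equiv.swap i.castSucc i.succ * Equiv.swap j.castSucc j.succ) ^ _ = 1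
    by_cases hij : i = j
    · subst hij
      simp
    · rw [if_neg hij]
      by_cases hn : (j : ℕ) + 1 = i ∨ (i : ℕ) + 1 = j
      · rw [if_pos hn]
        rcases hn with hn | hn
        · have e1 : i.castSucc = j.succ := Fin.ext (by simp; omega)
          have h1 : (Equiv.swap i.castSucc i.succ : Equiv.Perm (Fin (n + 1))) =
              Equiv.swap i.succ j.succ := by rw [e1, Equiv.swap_comm]
          have h2 : (Equiv.swap j.castSucc j.succ : Equiv.Perm (Fin (n + 1))) =
              Equiv.swap j.succ j.castSucc := by rw [Equiv.swap_comm]
          rw [h1, h2]
          apply PermF_cube
          · intro h
            have := congrArg Fin.val h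
            simp at this
            omega
          · intro h
            have := congrArg Fin.val h
            simp at this
          · intro h
            have := congrArg Fin.val h
            simp at this
            omega
        · have e1 : i.succ = j.castSucc := Fin.ext (by simp; omega)
          rw [e1]
          apply PermF_cube
          · intro h
            have := congrArg Fin.val h
            simp at this
            omega
          · intro h
            have := congrArg Fin.val h
            simp at this
          · intro h
            have := congrArg Fin.val h
            simp at this
            omega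
      · rw [if_neg hn]
        push Not at hn
        have hij' : (i : ℕ) ≠ j := fun h => hij (Fin.ext h)
        have hd : Equiv.Perm.Disjoint (Equiv.swap i.castSucc i.succ : Equiv.Perm (Fin (n + 1)))
            (Equiv.swap j.castSucc j.succ) := by
          intro x
          by_cases hx : x = i.castSucc ∨ x = i.succ
          · right
            apply Equiv.swap_apply_of_ne_of_ne
            · rcases hx with rfl | rfl
              · intro h
                have := congrArg Fin.val h
                simp at this
                omega
              · intro h
                have := congrArg Fin.val h
                simp at this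
                omega
            · rcases hx with rfl | rfl
              · intro h
                have := congrArg Fin.val h
                simp at this
                omega
              · intro h
                have := congrArg Fin.val h
                simp at this
                omega
          · push Not at hx
            left
            exact Equiv.swap_apply_of_ne_of_ne hx.1 hx.2
        have hc := hd.commute
        rw [hc.mul_pow, pow_two, pow_two, Equiv.swap_mul_self, Equiv.swap_mul_self, one_mul]
  exact ⟨cs.lift ⟨_, hf⟩, fun i => cs.lift_apply_simple hf i⟩
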