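import Mathlib

namespace Pool.Agent.Lib.MP_f146a9_al.DV

private theorem PermL_ne {n : ℕ} {i j : Fin n} (h : i ≠ j) : (i : ℕ) ≠ j := fun e => h (Fin.ext e)

private theorem PermL_comm {n : ℕ} {W : Type*} [Group W] (cs : CoxeterSystem (CoxeterMatrix.A n) W)
    {i j : Fin n} (hij : i ≠ j) (h1 : (j : ℕ) + 1 ≠ i) (h2 : (i : ℕ) + 1 ≠ j) :
    cs.simple i * cs.simple j = cs.simple j * cs.simple i := by
  have hM : CoxeterMatrix.A n i j = 2 := by simp [CoxeterMatrix.A, hij, h1, h2]
  have h := cs.simple_mul_simple_pow i j
  rw [hM, pow_two] at h
  have h3 := eq_inv_of_mul_eq_one_left h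
  rwa [mul_inv_rev, cs.inv_simple, cs.inv_simple] at h3

private theorem PermL_braid {n : ℕ} {W : Type*} [Group W] (cs : CoxeterSystem (CoxeterMatrix.A n) W)
    {i j : Fin n} (hij : (j : ℕ) + 1 = i ∨ (i : ℕ) + 1 = j) :
    cs.simple i * cs.simple j * cs.simple i = cs.simple j * cs.simple i * cs.simple j := by
  have hne : i ≠ j := by rintro rfl; omega
  have hM : CoxeterMatrix.A n i j = 3 := by simp [CoxeterMatrix.A, hne, hij]
  have h := cs.simple_mul_simple_pow i j
  rw [hM, pow_succ, pow_two] at h
  have h3 := eq_inv_of_mul_eq_one_left h
  rw [mul_inv_rev, cs.inv_simple, cs.inv_simple] at h3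
  have h4 : cs.simple i * cs.simple j * cs.simple i =
      cs.simple i * cs.simple j * (cs.simple i * cs.simple j) * cs.simple j := by
    rw [mul_assoc (cs.simple i * cs.simple j) (cs.simple i * cs.simple j) (cs.simple j),
      mul_assoc (cs.simple i) (cs.simple j) (cs.simple j), cs.simple_mul_simple_self, mul_one]
  rw [h4, h3]

private theorem PermL_inv {n : ℕ} {W : Type*} [Group W] (cs : CoxeterSystem (CoxeterMatrix.A n) W)
    (f : W →* Equiv.Perm (Fin (n + 1))) (hf : ∀ i : Fin n, f (cs.simple i) = Equiv.swap i.castSucc i.succ)
    (j : Fin n) (w : W) (x : Fin (n + 1)) :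
    (f (cs.simple j * w))⁻¹ x = (f w)⁻¹ (Equiv.swap j.castSucc j.succ x) := by
  rw [map_mul, mul_inv_rev, Equiv.Perm.mul_apply, hf, Equiv.swap_inv]

private theorem PermL_A {n : ℕ} {W : Type*} [Group W] (cs : CoxeterSystem (CoxeterMatrix.A n) W)
    (f : W →* Equiv.Perm (Fin (n + 1))) (hf : ∀ i : Fin n, f (cs.simple i) = Equiv.swap i.castSucc i.succ)
    (N : ℕ) : ∀ (w : W) (i : Fin n), cs.length w = N → cs.length w < cs.length (cs.simple i * w) →
    (f w)⁻¹ i.castSucc < (f w)⁻¹ i.succ := by
  induction N using Nat.strong_induction_on with
  | _ N ih =>
    intro w i hN hi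
    by_cases h1 : w = 1
    · rw [h1, map_one, inv_one]
      exact Fin.castSucc_lt_succ
    obtain ⟨j, hj⟩ := cs.exists_leftDescent_of_ne_one h1
    have hj' : cs.length (cs.simple j * w) < cs.length w := hj
    have hij : i ≠ j := by
      rintro rfl
      omega
    have hijv := PermL_ne hij
    obtain ⟨w', hw'⟩ : ∃ w', w' = cs.simple j * w := ⟨_, rfl⟩
    have hw : w = cs.simple j * w' := by rw [hw', cs.simple_mul_simple_cancel_left]
    have hl' : cs.length w' + 1 = cs.length w := by
      rw [hw']
      rcases cs.length_simple_mul w j with h | h <;> omega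
    have hjw' : cs.length w' < cs.length (cs.simple j * w') := by rw [← hw]; omega
    have A2 := ih (cs.length w') (by omega) w' j rfl hjw'
    have e0 : ∀ x, (f w)⁻¹ x = (f w')⁻¹ (Equiv.swap j.castSucc j.succ x) := by
      intro x
      rw [hw]
      exact PermL_inv cs f hf j w' x
    rw [e0, e0]
    by_cases hc : cs.length w' < cs.length (cs.simple i * w')
    · have A1 := ih (cs.length w') (by omega) w' i rfl hc
      by_cases n1 : (i : ℕ) + 1 = j
      · have e1 : i.succ = j.castSucc := Fin.ext (by simpa using n1)
        have a1 : i.castSucc ≠ j.castSucc := fun e => by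
          have := congrArg Fin.val e
          simp at this
          omega
        have a2 : i.castSucc ≠ j.succ := fun e => by
          have := congrArg Fin.val e
          simp at this
          omega
        rw [Equiv.swap_apply_of_ne_of_ne a1 a2, e1, Equiv.swap_apply_left]
        rw [e1] at A1
        exact A1.trans A2
      · by_cases n2 : (j : ℕ) + 1 = i
        · have e1 : i.castSucc = j.succ := Fin.ext (by simpa using n2.symm)
          have a1 : i.succ ≠ j.castSucc := fun e => by
            have := congrArg Fin.val e
            simp at this
            omega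
          have a2 : i.succ ≠ j.succ := fun e => by
            have := congrArg Fin.val e
            simp at this
            omega
          rw [Equiv.swap_apply_of_ne_of_ne a1 a2, e1, Equiv.swap_apply_right]
          rw [e1] at A1
          exact A2.trans A1
        · have a1 : i.castSucc ≠ j.castSucc := fun e => by
            have := congrArg Fin.val e
            simp at this
            omega
          have a2 : i.castSucc ≠ j.succ := fun e => by
            have := congrArg Fin.val e
            simp at this
            omega
          have a3 : i.succ ≠ j.castSucc := fun e => by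
            have := congrArg Fin.val e
            simp at this
            omega
          have a4 : i.succ ≠ j.succ := fun e => by
            have := congrArg Fin.val e
            simp at this
            omega
          rw [Equiv.swap_apply_of_ne_of_ne a1 a2, Equiv.swap_apply_of_ne_of_ne a3 a4]
          exact A1
    · obtain ⟨v, hv⟩ : ∃ v, v = cs.simple i * w' := ⟨_, rfl⟩
      have hw'v : w' = cs.simple i * v := by rw [hv, cs.simple_mul_simple_cancel_left]
      have hlv : cs.length v + 1 = cs.length w' := by
        rw [hv]
        rcases cs.length_simple_mul w' i with h | h <;> omega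
      have hiw : cs.simple i * w = cs.simple i * cs.simple j * cs.simple i * v := by
        rw [hw, hw'v]
        simp only [mul_assoc]
      by_cases nb : (j : ℕ) + 1 = i ∨ (i : ℕ) + 1 = j
      · have hjv : cs.length v < cs.length (cs.simple j * v) := by
          by_contra hcon
          obtain ⟨u, hu⟩ : ∃ u, u = cs.simple j * v := ⟨_, rfl⟩
          have hvu : v = cs.simple j * u := by rw [hu, cs.simple_mul_simple_cancel_left]
          have hlu : cs.length u + 1 = cs.length v := by
            rw [hu]
            rcases cs.length_simple_mul v j with h | h <;> omega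
          have h3 : cs.simple i * w = cs.simple j * (cs.simple i * u) := by
            rw [hiw, PermL_braid cs nb, hvu, mul_assoc (cs.simple j * cs.simple i),
              cs.simple_mul_simple_cancel_left, mul_assoc]
          have h4 : cs.length (cs.simple i * w) ≤ cs.length u + 2 := by
            rw [h3]
            rcases cs.length_simple_mul (cs.simple i * u) j with h | h <;>
              rcases cs.length_simple_mul u i with h' | h' <;> omega
          omega
        have hiv : cs.length v < cs.length (cs.simple i * v) := by rw [← hw'v]; omega
        have B1 := ih (cs.length v) (by omega) v i rfl hiv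
        have B2 := ih (cs.length v) (by omega) v j rfl hjv
        have e1 : ∀ x, (f w')⁻¹ x = (f v)⁻¹ (Equiv.swap i.castSucc i.succ x) := by
          intro x
          rw [hw'v]
          exact PermL_inv cs f hf i v x
        rw [e1, e1]
        rcases nb with n2 | n1
        · have e1 : i.castSucc = j.succ := Fin.ext (by simpa using n2.symm)
          have a1 : i.succ ≠ j.castSucc := fun e => by
            have := congrArg Fin.val e
            simp at this
            omega
          have a2 : i.succ ≠ j.succ := fun e => by
            have := congrArg Fin.val e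
            simp at this
            omega
          have a3 : j.castSucc ≠ j.succ := Fin.castSucc_lt_succ.ne
          rw [Equiv.swap_apply_of_ne_of_ne a1 a2, Equiv.swap_apply_right, e1,
            Equiv.swap_apply_right, Equiv.swap_apply_of_ne_of_ne a3 a1.symm]
          exact B2
        · have e1 : i.succ = j.castSucc := Fin.ext (by simpa using n1)
          have a1 : i.castSucc ≠ j.castSucc := fun e => by
            have := congrArg Fin.val e
            simp at this
            omega
          have a2 : i.castSucc ≠ j.succ := fun e => by
            have := congrArg Fin.val e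
            simp at this
            omega
          have a3 : j.succ ≠ j.castSucc := Fin.castSucc_lt_succ.ne'
          rw [Equiv.swap_apply_of_ne_of_ne a1 a2, Equiv.swap_apply_left, e1,
            Equiv.swap_apply_left, Equiv.swap_apply_of_ne_of_ne a2.symm a3]
          exact B2
      · exfalso
        push Not at nb
        have h3 : cs.simple i * w = cs.simple j * v := by
          rw [hiw, PermL_comm cs hij nb.1 nb.2, mul_assoc (cs.simple j), cs.simple_mul_simple_self,
            mul_one]
        have h4 : cs.length (cs.simple i * w) ≤ cs.length v + 1 := by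
          rw [h3]
          rcases cs.length_simple_mul v j with h | h <;> omega
        omega

theorem perm_len {n : ℕ} {W : Type*} [Group W] (cs : CoxeterSystem (CoxeterMatrix.A n) W)
    (f : W →* Equiv.Perm (Fin (n + 1))) (hf : ∀ i : Fin n, f (cs.simple i) = Equiv.swap i.castSucc i.succ)
    (i : Fin n) (w : W) :
    cs.length w < cs.length (cs.simple i * w) ↔ (f w)⁻¹ i.castSucc < (f w)⁻¹ i.succ := by
  refine ⟨PermL_A cs f hf _ w i rfl, fun h => ?_⟩
  by_contra hcon
  have h1 : cs.length (cs.simple i * w) < cs.length (cs.simple i * (cs.simple i * w)) := by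
    rw [cs.simple_mul_simple_cancel_left]
    rcases cs.length_simple_mul w i with h' | h' <;> omega
  have h2 := PermL_A cs f hf _ _ i rfl h1
  rw [PermL_inv cs f hf, PermL_inv cs f hf, Equiv.swap_apply_left, Equiv.swap_apply_right] at h2
  exact lt_asymm h h2

theorem perm_injective {n : ℕ} {W : Type*} [Group W] (cs : CoxeterSystem (CoxeterMatrix.A n) W)
    (f : W →* Equiv.Perm (Fin (n + 1)))
    (hf : ∀ i : Fin n, f (cs.simple i) = Equiv.swap i.castSucc i.succ) : Function.Injective f := by
  rw [injective_iff_map_eq_one]
  intro w hw
  by_contra h1
  obtain ⟨j, hj⟩ := cs.exists_leftDescent_of_ne_one h1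
  have hj' : cs.length (cs.simple j * w) < cs.length w := hj
  have h2 : ¬ cs.length w < cs.length (cs.simple j * w) := by omega
  rw [perm_len cs f hf, hw, inv_one] at h2
  exact h2 Fin.castSucc_lt_succ

end Pool.Agent.Lib.MP_f146a9_al.DV
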