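import Pool.Agent.Lib.MP_f146a9_al.DV.Defs

/-! MP_f146a9_al. Relations between the transvections. -/

namespace Pool.Agent.Lib.MP_f146a9_al.DV

private def E {n : ℕ} (i : Fin n) : Mat n := Matrix.vecMulVec (uv i) (fv i)

private theorem gen_E {n : ℕ} (i : Fin n) (k : ℚ) : gen i k = 1 + k • E i := rfl

private theorem dot_uv {n : ℕ} (v : Fin (n + 1) → ℚ) (j : Fin n) :
    v ⬝ᵥ uv j = v j.castSucc + v j.succ := by
  have hne : j.castSucc ≠ j.succ := (Fin.castSucc_lt_succ).ne
  have h1 : uv j = Pi.single j.castSucc 1 + Pi.single j.succ 1 := by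
    funext a
    simp only [uv, Pi.add_apply, Pi.single_apply]
    by_cases ha : a = j.castSucc
    · subst ha
      simp [hne]
    · simp [ha]
  rw [h1, dotProduct_add, dotProduct_single, dotProduct_single, mul_one, mul_one]

private theorem dot_eq {n : ℕ} (i j : Fin n) :
    fv i ⬝ᵥ uv j = (if (j : ℕ) = i then 0 else if (i : ℕ) + 1 = j then -1
      else if (j : ℕ) + 1 = i then 1 else 0) := by
  rw [dot_uv]
  simp only [fv, Fin.ext_iff, Fin.val_castSucc, Fin.val_succ]
  split_ifs <;> first | omega | norm_num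

private theorem EE {n : ℕ} (i j : Fin n) :
    E i * E j = (fv i ⬝ᵥ uv j) • Matrix.vecMulVec (uv i) (fv j) := by
  rw [E, E, Matrix.vecMulVec_mul_vecMulVec, Matrix.vecMulVec_smul]

private theorem E_sq {n : ℕ} (i : Fin n) : E i * E i = 0 := by
  rw [EE, dot_eq, if_pos rfl, zero_smul]

private theorem EEE {n : ℕ} (i j : Fin n) :
    E i * E j * E i = ((fv i ⬝ᵥ uv j) * (fv j ⬝ᵥ uv i)) • E i := by
  rw [EE, Matrix.smul_mul, E, Matrix.vecMulVec_mul_vecMulVec, Matrix.vecMulVec_smul, smul_smul]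

theorem gen_zero {n : ℕ} (i : Fin n) : gen i 0 = 1 := by
  rw [gen_E, zero_smul, add_zero]

theorem gen_mul {n : ℕ} (i : Fin n) (k l : ℚ) : gen i k * gen i l = gen i (k + l) := by
  rw [gen_E, gen_E, gen_E]
  rw [add_mul, mul_add, mul_add, one_mul, one_mul, mul_one, Matrix.smul_mul, Matrix.mul_smul, E_sq,
    smul_zero, smul_zero, add_zero, add_smul, add_assoc, add_comm (l • E i)]

theorem gen_det {n : ℕ} (i : Fin n) (k : ℚ) : IsUnit (gen i k).det := by
  refine Matrix.isUnit_det_of_right_inverse (B := gen i (-k)) ?_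
  rw [gen_mul, add_neg_cancel, gen_zero]

theorem gen_comm {n : ℕ} (i j : Fin n) (hij : i ≠ j) (h1 : (j : ℕ) + 1 ≠ i) (h2 : (i : ℕ) + 1 ≠ j) :
    gen i 1 * gen j 1 = gen j 1 * gen i 1 := by
  have hv : (i : ℕ) ≠ j := fun h => hij (Fin.ext h)
  have e1 : E i * E j = 0 := by
    rw [EE, dot_eq, if_neg (Ne.symm hv), if_neg h2, if_neg h1, zero_smul]
  have e2 : E j * E i = 0 := by
    rw [EE, dot_eq, if_neg hv, if_neg h1, if_neg h2, zero_smul]
  rw [gen_E, gen_E, one_smul, one_smul]
  rw [add_mul, mul_add, mul_add, add_mul, mul_add, mul_add, e1, e2]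
  simp only [one_mul, mul_one, add_zero]
  rw [add_assoc, add_assoc, add_comm (E j)]

theorem gen_braid {n : ℕ} (i j : Fin n) (h : (j : ℕ) + 1 = i ∨ (i : ℕ) + 1 = j) :
    gen i 1 * gen j 1 * gen i 1 = gen j 1 * gen i 1 * gen j 1 := by
  have key : ∀ i j : Fin n, ((j : ℕ) + 1 = i ∨ (i : ℕ) + 1 = j) → E i * E j * E i = - E i := by
    intro i j h
    rw [EEE, dot_eq, dot_eq]
    rcases h with h | h
    · rw [if_neg (by omega), if_neg (by omega), if_pos h, if_neg (by omega), if_pos h]
      simp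
    · rw [if_neg (by omega), if_pos h, if_neg (by omega), if_neg (by omega), if_pos h]
      simp
  have e1 := key i j h
  have e2 := key j i h.symm
  have s1 := E_sq i
  have s2 := E_sq j
  rw [gen_E, gen_E, one_smul, one_smul]
  have x1 : (1 + E i) * (1 + E j) * (1 + E i) =
      1 + E i + E j + E i * E j + E j * E i + (E i + E i * E i + E i * E j * E i) := by
    noncomm_ring
  have x2 : (1 + E j) * (1 + E i) * (1 + E j) =
      1 + E i + E j + E i * E j + E j * E i + (E j + E j * E j + E j * E i * E j) := by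
    noncomm_ring
  rw [x1, x2, e1, e2, s1, s2]
  simp

theorem gen_apply {n : ℕ} (i : Fin n) (k : ℚ) (a b : Fin (n + 1)) :
    gen i k a b = (if a = b then 1 else 0) + k * (uv i a * fv i b) := by
  simp only [gen, Matrix.add_apply, Matrix.smul_apply, Matrix.vecMulVec_apply, Matrix.one_apply,
    smul_eq_mul]

end Pool.Agent.Lib.MP_f146a9_al.DV
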