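import Pool.Agent.Lib.MP_f146a9_al.DV.Pi
import Pool.Agent.Lib.MP_f146a9_al.DV.Rel

/-!
MP_f146a9_al. Multiplication by a transvection moves a cell by at most one step.
-/

namespace Pool.Agent.Lib.MP_f146a9_al.DV

private theorem cell_mul_right {n : ℕ} {z c : Mat n} {v : Equiv.Perm (Fin (n + 1))}
    (h : Cell z v) (hc : UT c) : Cell (z * c) v := by
  obtain ⟨b, d, hb, hd, e⟩ := h
  exact ⟨b, d * c, hb, ut_mul hd hc, by rw [e, mul_assoc]⟩

private theorem gen_mul_apply {n : ℕ} (i : Fin n) (k : ℚ) (b : Mat n) (a d : Fin (n + 1)) :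
    (gen i k * b) a d = b a d + k * (uv i a * (b i.castSucc d - b i.succ d)) := by
  have hne : i.castSucc ≠ i.succ := (Fin.castSucc_lt_succ).ne
  have hf : ∑ e, fv i e * b e d = b i.castSucc d - b i.succ d := by
    rw [Finset.sum_eq_add_of_mem i.castSucc i.succ (Finset.mem_univ _) (Finset.mem_univ _) hne]
    · simp [fv, hne.symm, sub_eq_add_neg]
    · rintro e _ ⟨h1, h2⟩
      simp [fv, h1, h2]
  rw [Matrix.mul_apply]
  simp only [gen_apply, add_mul, ite_mul, one_mul, zero_mul, Finset.sum_add_distrib,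
    Finset.sum_ite_eq, Finset.mem_univ, if_true]
  rw [← hf, Finset.mul_sum, Finset.mul_sum]
  congr 1
  refine Finset.sum_congr rfl fun e _ => ?_
  ring

private theorem low {n : ℕ} (i : Fin n) (k : ℚ) {b : Mat n} (hb : UT b) :
    ∀ a c, c < a → ¬ (a = i.succ ∧ c = i.castSucc) → (gen i k * b) a c = 0 := by
  intro a d hda hn
  have hpq : i.castSucc < i.succ := Fin.castSucc_lt_succ
  rw [gen_mul_apply, hb.1 a d hda]
  by_cases h1 : a = i.castSucc
  · subst h1
    rw [hb.1 _ d hda, hb.1 _ d (hda.trans hpq)]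
    ring
  · by_cases h2 : a = i.succ
    · subst h2
      have h3 : d ≠ i.castSucc := fun h => hn ⟨rfl, h⟩
      have h4 : d < i.castSucc := by
        refine lt_of_le_of_ne ?_ h3
        rw [Fin.lt_def, Fin.val_succ] at hda
        rw [Fin.le_def, Fin.val_castSucc]
        omega
      rw [hb.1 _ d h4, hb.1 _ d hda]
      ring
    · have h3 : uv i a = 0 := by simp [uv, h1, h2]
      rw [h3]
      ring

private theorem det_unit {n : ℕ} (i : Fin n) (k : ℚ) {b : Mat n} (hb : UT b) :
    IsUnit (gen i k * b).det := by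
  rw [Matrix.det_mul]
  exact (gen_det i k).mul hb.2

theorem step_up {n : ℕ} (i : Fin n) {k : ℚ} (hk : k ≠ 0) {x : Mat n} {w : Equiv.Perm (Fin (n + 1))}
    (h : Cell x w) (hw : w⁻¹ i.castSucc < w⁻¹ i.succ) :
    Cell (gen i k * x) (Equiv.swap i.castSucc i.succ * w) := by
  obtain ⟨b, c, hb, hc, e⟩ := h
  have hpq : i.castSucc < i.succ := Fin.castSucc_lt_succ
  have h0 : (gen i k * b) i.succ i.castSucc ≠ 0 := by
    rw [gen_mul_apply, hb.1 _ _ hpq]
    have h1 : uv i i.succ = 1 := by simp [uv]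
    rw [h1, zero_add, one_mul, sub_zero]
    exact mul_ne_zero hk (ut_diag hb _)
  have h2 := pi_up i (gen i k * b) (low i k hb) (det_unit i k hb) h0 w hw
  have h3 : gen i k * x = gen i k * b * pm w * c := by
    rw [e]
    simp only [mul_assoc]
  rw [h3]
  exact cell_mul_right h2 hc

theorem step_down {n : ℕ} (i : Fin n) (k : ℚ) {x : Mat n} {w : Equiv.Perm (Fin (n + 1))}
    (h : Cell x w) (hw : w⁻¹ i.succ < w⁻¹ i.castSucc) :
    Cell (gen i k * x) w ∨ Cell (gen i k * x) (Equiv.swap i.castSucc i.succ * w) := by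
  obtain ⟨b, c, hb, hc, e⟩ := h
  have hpq : i.castSucc < i.succ := Fin.castSucc_lt_succ
  obtain ⟨s, hs⟩ : ∃ s : Equiv.Perm (Fin (n + 1)), s = Equiv.swap i.castSucc i.succ := ⟨_, rfl⟩
  rw [← hs]
  have hss : s * s = 1 := by rw [hs, Equiv.swap_mul_self]
  have hsi : s⁻¹ = s := by rw [hs, Equiv.swap_inv]
  have hsp : s i.castSucc = i.succ := by rw [hs, Equiv.swap_apply_left]
  have hsq : s i.succ = i.castSucc := by rw [hs, Equiv.swap_apply_right]
  have hw' : (s * w)⁻¹ i.castSucc < (s * w)⁻¹ i.succ := by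
    rw [mul_inv_rev, hsi, Equiv.Perm.mul_apply, Equiv.Perm.mul_apply, hsp, hsq]
    exact hw
  have hsw : s * (s * w) = w := by rw [← mul_assoc, hss, one_mul]
  have hpp : pm s * pm s = (1 : Mat n) := by rw [← pm_mul, hss, pm_one]
  obtain ⟨y, hy⟩ : ∃ y : Mat n, y = gen i k * b * pm s := ⟨_, rfl⟩
  have hlow : ∀ a d, d < a → ¬ (a = i.succ ∧ d = i.castSucc) → y a d = 0 := by
    intro a d hda hn
    rw [hy, mul_pm_apply]
    by_cases h1 : d = i.castSucc
    · subst h1
      have h2 : a ≠ i.succ := fun h => hn ⟨h, rfl⟩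
      rw [hsp]
      refine low i k hb a i.succ ?_ (fun h => h2 h.1)
      refine lt_of_le_of_ne ?_ h2.symm
      rw [Fin.lt_def, Fin.val_castSucc] at hda
      rw [Fin.le_def, Fin.val_succ]
      omega
    · by_cases h2 : d = i.succ
      · subst h2
        rw [hsq]
        exact low i k hb a i.castSucc (hpq.trans hda) (fun h => hda.ne' h.1)
      · have h3 : s d = d := by rw [hs, Equiv.swap_apply_of_ne_of_ne h1 h2]
        rw [h3]
        exact low i k hb a d hda hn
  have hdet : IsUnit y.det := by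
    rw [hy, Matrix.det_mul]
    exact (det_unit i k hb).mul (Matrix.isUnit_det_of_left_inverse hpp)
  have h3 : gen i k * x = y * pm (s * w) * c := by
    rw [e, hy, pm_mul]
    calc gen i k * (b * pm w * c) = gen i k * b * (pm w * c) := by simp only [mul_assoc]
      _ = gen i k * b * ((pm s * pm s) * (pm w * c)) := by rw [hpp, one_mul]
      _ = gen i k * b * pm s * (pm s * pm w) * c := by simp only [mul_assoc]
  rw [h3]
  by_cases h0 : y i.succ i.castSucc = 0
  · right
    refine ⟨y, c, ⟨fun a d hda => ?_, hdet⟩, hc, rfl⟩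
    by_cases h4 : a = i.succ ∧ d = i.castSucc
    · rw [h4.1, h4.2, h0]
    · exact hlow a d hda h4
  · left
    have h4 := pi_up i y hlow hdet h0 (s * w) hw'
    rw [← hs, hsw] at h4
    exact cell_mul_right h4 hc

end Pool.Agent.Lib.MP_f146a9_al.DV
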