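import Pool.Agent.Lib.MP_f146a9_al.DV.Ut

/-! Cells of different permutations are disjoint: from `b * pm w * c = b' * pm w' * c'` one gets
`d * pm w = pm w' * e` with `d`, `e` invertible upper triangular, so `w' a ≤ w a` for all `a`. -/

namespace Pool.Agent.Lib.MP_f146a9_al.DV

theorem cell_unique {n : ℕ} {x : Mat n} {w w' : Equiv.Perm (Fin (n + 1))} (h : Cell x w)
    (h' : Cell x w') : w = w' := by
  obtain ⟨b, c, hb, hc, hx⟩ := h
  obtain ⟨b', c', hb', hc', hx'⟩ := h'
  obtain ⟨bi, hbi, -, hbi2⟩ := ut_inv hb'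
  obtain ⟨ci, hci, hci1, -⟩ := ut_inv hc
  have hd : UT (bi * b) := ut_mul hbi hb
  have he : UT (c' * ci) := ut_mul hc' hci
  have key : bi * b * pm w = pm w' * (c' * ci) := by
    have h1 : b * pm w * c = b' * pm w' * c' := hx.symm.trans hx'
    calc bi * b * pm w = bi * (b * pm w * c) * ci := by
          rw [← mul_assoc, ← mul_assoc, mul_assoc _ c ci, hci1, mul_one]
      _ = bi * (b' * pm w' * c') * ci := by rw [h1]
      _ = pm w' * (c' * ci) := by
          rw [← mul_assoc, ← mul_assoc, hbi2, one_mul, mul_assoc]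
  have hle : ∀ a, (w' a).val ≤ (w a).val := by
    intro a
    have h2 : (bi * b * pm w) (w' a) a = (pm w' * (c' * ci)) (w' a) a := by rw [key]
    have h4 : w'⁻¹ (w' a) = a := w'.symm_apply_apply a
    rw [mul_pm_apply, pm_mul_apply, h4] at h2
    have h3 : (bi * b) (w' a) (w a) ≠ 0 := by
      rw [h2]
      exact ut_diag he a
    by_contra hlt
    exact h3 (hd.1 _ _ (Fin.lt_def.2 (not_le.1 hlt)))
  have hsum : ∑ a, (w' a).val = ∑ a, (w a).val := by
    rw [Equiv.sum_comp w' (fun i : Fin (n + 1) => i.val),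
      Equiv.sum_comp w (fun i : Fin (n + 1) => i.val)]
  have heq := (Finset.sum_eq_sum_iff_of_le fun a _ => hle a).1 hsum
  ext a
  exact (heq a (Finset.mem_univ a)).symm

end Pool.Agent.Lib.MP_f146a9_al.DV
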