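import Pool.Agent.Lib.MP_f146a9_al.DV.Cells
import Pool.Agent.Lib.MP_f146a9_al.DV.Step
import Pool.Agent.Lib.MP_f146a9_al.DV.Uniq
import Pool.Agent.Lib.MP_f146a9_al.DV.Hom
import Pool.Agent.Lib.MP_f146a9_al.DV.PermF
import Pool.Agent.Lib.MP_f146a9_al.DV.PermL

/-!
MP_f146a9_al. The cells of the braid groups.
-/

namespace Pool.Agent.Lib.MP_f146a9_al.DV

open CoxeterSystem

theorem exists_cells {n : ℕ} {W : Type*} [Group W] (cs : CoxeterSystem (CoxeterMatrix.A n) W) :
    ∃ cell : ArtinGroup (CoxeterMatrix.A n) → W → Prop, IsCells cs cell := by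
  obtain ⟨f, hf⟩ := exists_perm cs
  obtain ⟨ρ, hρ⟩ := exists_hom n
  have hlen := perm_len cs f hf
  have hinj := perm_injective cs f hf
  refine ⟨fun g w => Cell ((ρ g : (Mat n)ˣ) : Mat n) (f w), ?_, ?_, ?_, ?_⟩
  · change Cell ((ρ 1 : (Mat n)ˣ) : Mat n) (f 1)
    rw [map_one, map_one, Units.val_one]
    exact ⟨1, 1, ut_one, ut_one, by rw [pm_one, one_mul, one_mul]⟩
  · intro g w w' h h'
    exact hinj (cell_unique h h')
  · intro i k g w hk h hw
    have h1 := step_up i (k := (k : ℚ)) (by exact_mod_cast hk) h ((hlen i w).1 hw)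
    change Cell ((ρ (_ * g) : (Mat n)ˣ) : Mat n) (f (_ * w))
    rw [map_mul, map_mul, Units.val_mul, hρ, hf]
    exact h1
  · intro i k g w h hw
    have h2 : (f w)⁻¹ i.succ < (f w)⁻¹ i.castSucc := by
      have h3 : ¬ (f w)⁻¹ i.castSucc < (f w)⁻¹ i.succ := by
        rw [← hlen i w]
        omega
      rcases lt_or_gt_of_ne (a := (f w)⁻¹ i.castSucc) (b := (f w)⁻¹ i.succ) (by
        intro h4
        have h5 := (f w)⁻¹.injective h4
        exact absurd h5 (Fin.castSucc_lt_succ).ne) with h4 | h4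
      · exact absurd h4 h3
      · exact h4
    rcases step_down i (k : ℚ) h h2 with h1 | h1
    · left
      change Cell ((ρ (_ * g) : (Mat n)ˣ) : Mat n) (f w)
      rw [map_mul, Units.val_mul, hρ]
      exact h1
    · right
      change Cell ((ρ (_ * g) : (Mat n)ˣ) : Mat n) (f (_ * w))
      rw [map_mul, map_mul, Units.val_mul, hρ, hf]
      exact h1

end Pool.Agent.Lib.MP_f146a9_al.DV
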