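import Pool.Agent.Lib.MP_f146a9_al.PathDefs

/-!
MP_f146a9_al. Cells: an Artin group with a map to a group with a Bruhat decomposition, and the retraction of the
Deligne complex which they define.
-/

namespace Pool.Agent.Lib.MP_f146a9_al.DV

open CoxeterSystem

variable {B W : Type*} [Group W] {M : CoxeterMatrix B} (cs : CoxeterSystem M W)

/-- cells for the elements of the Artin group, with the rules of the double cosets `B w B` of a Tits
system: an element lies in at most one cell, `1` lies in the cell of `1`, and a nonzero power of a generator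
`i` maps the cell of `w` into the cell of `s w` if `s w` is longer, and into the union of the cells of `w` and
`s w` otherwise -/
structure IsCells (cell : ArtinGroup M → W → Prop) : Prop where
  one : cell 1 1
  uniq : ∀ g w w', cell g w → cell g w' → w = w'
  up : ∀ (i : B) (k : ℤ) (g : ArtinGroup M) (w : W), k ≠ 0 → cell g w →
    cs.length w < cs.length (cs.simple i * w) →
    cell ((PresentedGroup.of i : ArtinGroup M) ^ k * g) (cs.simple i * w)
  down : ∀ (i : B) (k : ℤ) (g : ArtinGroup M) (w : W), cell g w →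
    cs.length (cs.simple i * w) < cs.length w →
    cell ((PresentedGroup.of i : ArtinGroup M) ^ k * g) w ∨
      cell ((PresentedGroup.of i : ArtinGroup M) ^ k * g) (cs.simple i * w)

theorem exists_list {G : Type*} [Group G] {s : Set G} {x : G} (hx : x ∈ Subgroup.closure s) :
    ∃ l : List G, (∀ y ∈ l, y ∈ s ∨ y⁻¹ ∈ s) ∧ l.prod = x := by
  rw [← Subgroup.mem_toSubmonoid, Subgroup.closure_toSubmonoid] at hx
  obtain ⟨l, h1, h2⟩ := Submonoid.exists_list_of_mem_closure hx
  exact ⟨l, fun y hy => by simpa using h1 y hy, h2⟩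

variable {cs} {cell : ArtinGroup M → W → Prop}

theorem IsCells.step (hc : IsCells cs cell) (i : B) (k : ℤ) (g : ArtinGroup M) (w : W) (h : cell g w) :
    cell ((PresentedGroup.of i : ArtinGroup M) ^ k * g) w ∨
      cell ((PresentedGroup.of i : ArtinGroup M) ^ k * g) (cs.simple i * w) := by
  by_cases hk : k = 0
  · left
    rw [hk, zpow_zero, one_mul]
    exact h
  · rcases lt_or_gt_of_ne (cs.length_simple_mul_ne w i) with h1 | h1
    · exact hc.down i k g w h h1
    · exact Or.inr (hc.up i k g w hk h h1)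

theorem IsCells.parabolic (hc : IsCells cs cell) {T : Set B} {h : ArtinGroup M} (hh : h ∈ Apar M T)
    (g : ArtinGroup M) (w : W) (hg : cell g w) : ∃ v ∈ Wpar cs T, cell (h * g) (v * w) := by
  obtain ⟨l, hl, rfl⟩ := exists_list hh
  clear hh
  induction l with
  | nil => exact ⟨1, one_mem _, by rw [List.prod_nil, one_mul, one_mul]; exact hg⟩
  | cons y l ih =>
    have hl' : ∀ y ∈ l, y ∈ (fun i => (PresentedGroup.of i : ArtinGroup M)) '' T ∨
        y⁻¹ ∈ (fun i => (PresentedGroup.of i : ArtinGroup M)) '' T :=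
      fun z hz => hl z (List.mem_cons_of_mem _ hz)
    obtain ⟨v, hv, h1⟩ := ih hl'
    obtain ⟨i, hi, k, hk⟩ : ∃ i ∈ T, ∃ k : ℤ, y = (PresentedGroup.of i : ArtinGroup M) ^ k := by
      rcases hl y (by simp) with h | h
      · obtain ⟨i, hi, h2⟩ := h
        exact ⟨i, hi, 1, by rw [zpow_one]; exact h2.symm⟩
      · obtain ⟨i, hi, h2⟩ := h
        refine ⟨i, hi, -1, ?_⟩
        rw [zpow_neg_one, ← inv_inv y]
        exact congrArg _ h2.symm
    rw [List.prod_cons, mul_assoc, hk]
    rcases hc.step i k _ _ h1 with h2 | h2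
    · exact ⟨v, hv, h2⟩
    · refine ⟨cs.simple i * v, mul_mem (Subgroup.subset_closure ⟨i, hi, rfl⟩) hv, ?_⟩
      rw [mul_assoc]
      exact h2

theorem IsCells.exists_cell (hc : IsCells cs cell) (g : ArtinGroup M) : ∃ w, cell g w := by
  have hg : g ∈ Apar M Set.univ := by
    unfold Apar
    rw [Set.image_univ, PresentedGroup.closure_range_of]
    exact Subgroup.mem_top g
  obtain ⟨v, _, h⟩ := hc.parabolic hg 1 1 hc.one
  rw [mul_one, mul_one] at h
  exact ⟨v, h⟩

/-- the cell function -/
theorem IsCells.exists_delta (hc : IsCells cs cell) : ∃ d : ArtinGroup M → W, d 1 = 1 ∧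
    (∀ (T : Set B) (g h : ArtinGroup M), h ∈ Apar M T → ∃ v ∈ Wpar cs T, d (g * h) = d g * v) ∧
    (∀ (i : B) (k : ℤ) (g : ArtinGroup M), d (g * (PresentedGroup.of i : ArtinGroup M) ^ k) = d g ∨
      d (g * (PresentedGroup.of i : ArtinGroup M) ^ k) = d g * cs.simple i) ∧
    ∀ (i : B) (k : ℤ) (g : ArtinGroup M), k ≠ 0 → cs.length (d g) < cs.length (d g * cs.simple i) →
      d (g * (PresentedGroup.of i : ArtinGroup M) ^ k) = d g * cs.simple i := by
  choose e he using hc.exists_cell
  refine ⟨fun g => (e g⁻¹)⁻¹, ?_, ?_, ?_, ?_⟩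
  · have h1 := hc.uniq _ _ _ (he 1) hc.one
    change (e 1⁻¹)⁻¹ = 1
    rw [inv_one, h1, inv_one]
  · intro T g h hh
    obtain ⟨v, hv, h1⟩ := hc.parabolic (inv_mem hh) g⁻¹ _ (he g⁻¹)
    rw [← mul_inv_rev] at h1
    refine ⟨v⁻¹, inv_mem hv, ?_⟩
    change (e (g * h)⁻¹)⁻¹ = (e g⁻¹)⁻¹ * v⁻¹
    rw [hc.uniq _ _ _ (he _) h1, mul_inv_rev]
  · intro i k g
    have h0 : (g * (PresentedGroup.of i : ArtinGroup M) ^ k)⁻¹ =
        (PresentedGroup.of i : ArtinGroup M) ^ (-k) * g⁻¹ := by rw [mul_inv_rev, zpow_neg]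
    rcases hc.step i (-k) g⁻¹ _ (he g⁻¹) with h1 | h1
    · left
      rw [← h0] at h1
      change (e _)⁻¹ = (e _)⁻¹
      rw [hc.uniq _ _ _ (he _) h1]
    · right
      rw [← h0] at h1
      change (e _)⁻¹ = (e _)⁻¹ * _
      rw [hc.uniq _ _ _ (he _) h1, mul_inv_rev, inv_simple]
  · intro i k g hk hlen
    have h0 : (g * (PresentedGroup.of i : ArtinGroup M) ^ k)⁻¹ =
        (PresentedGroup.of i : ArtinGroup M) ^ (-k) * g⁻¹ := by rw [mul_inv_rev, zpow_neg]
    have h2 : cs.length (e g⁻¹) < cs.length (cs.simple i * e g⁻¹) := by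
      have h3 : cs.length ((e g⁻¹)⁻¹) = cs.length (e g⁻¹) := cs.length_inv _
      have h4 : cs.length ((e g⁻¹)⁻¹ * cs.simple i) = cs.length (cs.simple i * e g⁻¹) := by
        rw [← cs.length_inv, mul_inv_rev, inv_simple, inv_inv]
      change cs.length ((e g⁻¹)⁻¹) < cs.length ((e g⁻¹)⁻¹ * cs.simple i) at hlen
      omega
    have h1 := hc.up i (-k) g⁻¹ _ (neg_ne_zero.2 hk) (he g⁻¹) h2
    rw [← h0] at h1
    change (e _)⁻¹ = (e _)⁻¹ * _
    rw [hc.uniq _ _ _ (he _) h1, mul_inv_rev, inv_simple]

/-- an element of a standard parabolic subgroup fixes the points fixed by its generators -/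
theorem smul_of_mem' {X : Type*} [MulAction W X] {T : Set B} {y : X}
    (hy : ∀ i ∈ T, cs.simple i • y = y) {v : W} (hv : v ∈ Wpar cs T) : v • y = y := by
  induction hv using Subgroup.closure_induction with
  | mem x hx =>
    obtain ⟨i, hi, rfl⟩ := hx
    exact hy i hi
  | one => exact one_smul _ _
  | mul a b _ _ ha hb => rw [mul_smul, hb, ha]
  | inv a _ ha =>
    rw [inv_smul_eq_iff]
    exact ha.symm

theorem delta_word (d : ArtinGroup M → W) (h1 : d 1 = 1)
    (h3 : ∀ (i : B) (k : ℤ) (g : ArtinGroup M), k ≠ 0 → cs.length (d g) < cs.length (d g * cs.simple i) →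
      d (g * (PresentedGroup.of i : ArtinGroup M) ^ k) = d g * cs.simple i) (l : List (B × ℤ))
    (hl : ∀ p ∈ l, p.2 ≠ 0) (hr : cs.IsReduced (letters l)) :
    d (artinWord M l) = cs.wordProd (letters l) := by
  induction l using List.reverseRecOn with
  | nil => exact h1
  | append_singleton l p ih =>
    obtain ⟨i, k⟩ := p
    have hk : k ≠ 0 := hl (i, k) (by simp)
    have hl' : ∀ p ∈ l, p.2 ≠ 0 := fun p hp => hl p (List.mem_append_left _ hp)
    have e1 : letters (l ++ [(i, k)]) = letters l ++ [i] := by simp [letters]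
    have e2 : artinWord M (l ++ [(i, k)]) = artinWord M l * (PresentedGroup.of i : ArtinGroup M) ^ k := by
      simp [artinWord]
    have hr1 : cs.IsReduced (letters l ++ [i]) := by rw [← e1]; exact hr
    have hr' : cs.IsReduced (letters l) := by
      have := hr1.take (letters l).length
      rwa [List.take_left] at this
    have hlen : cs.length (cs.wordProd (letters l)) <
        cs.length (cs.wordProd (letters l) * cs.simple i) := by
      have h1 : cs.length (cs.wordProd (letters l) * cs.simple i) = (letters l).length + 1 := by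
        have := hr1.eq
        rw [wordProd_append, wordProd_singleton] at this
        rw [this]
        simp
      rw [h1, hr'.eq]
      omega
    have h4 := ih hl' hr'
    rw [e1, e2, wordProd_append, wordProd_singleton, ← h4]
    rw [← h4] at hlen
    exact h3 i k _ hk hlen

/-- the retraction -/
theorem IsCells.retraction {X : Type*} [MetricSpace X] [MulAction W X] [IsIsometricSMul W X]
    (hc : IsCells cs cell) : ∃ F : ArtinGroup M → X → X,
    (∀ y, F 1 y = y) ∧
    (∀ g, ∃ w : W, ∀ y, F g y = w • y) ∧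
    (∀ (T : Set B) (g h : ArtinGroup M) (y : X), h ∈ Apar M T → (∀ i ∈ T, cs.simple i • y = y) →
      F (g * h) y = F g y) ∧
    (∀ (c : List (X × ArtinGroup M)) (g : ArtinGroup M) (x y : X), IsPath cs c →
      dist (F g x) (F (g * (c.map Prod.snd).prod) y) ≤ pathLen x c y) ∧
    ∀ l : List (B × ℤ), (∀ p ∈ l, p.2 ≠ 0) → cs.IsReduced (letters l) → ∀ y : X,
      F (artinWord M l) y = cs.wordProd (letters l) • y := by
  obtain ⟨d, h1, h2, _, h3⟩ := hc.exists_delta
  have hwd : ∀ (T : Set B) (g h : ArtinGroup M) (y : X), h ∈ Apar M T →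
      (∀ i ∈ T, cs.simple i • y = y) → d (g * h) • y = d g • y := by
    intro T g h y hh hy
    obtain ⟨v, hv, h4⟩ := h2 T g h hh
    rw [h4, mul_smul, smul_of_mem' hy hv]
  refine ⟨fun g y => d g • y, ?_, fun g => ⟨d g, fun _ => rfl⟩, hwd, ?_, ?_⟩
  · intro y
    change d 1 • y = y
    rw [h1, one_smul]
  · intro c
    induction c with
    | nil =>
      intro g x y _
      change dist (d g • x) (d (g * 1) • y) ≤ dist x y
      rw [mul_one, dist_smul]
    | cons q c ih =>
      intro g x y hcp
      have hq : q.2 ∈ Apar M {i | cs.simple i • q.1 = q.1} := hcp q (by simp)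
      have h5 := ih (g * q.2) q.1 y fun r hr => hcp r (List.mem_cons_of_mem _ hr)
      have h6 : d (g * q.2) • q.1 = d g • q.1 := hwd _ g q.2 q.1 hq fun i hi => hi
      have h7 : g * ((q :: c).map Prod.snd).prod = g * q.2 * (c.map Prod.snd).prod := by
        rw [List.map_cons, List.prod_cons, mul_assoc]
      change dist (d g • x) (d (g * ((q :: c).map Prod.snd).prod) • y) ≤
        dist x q.1 + pathLen q.1 c y
      change dist (d (g * q.2) • q.1) (d (g * q.2 * (c.map Prod.snd).prod) • y) ≤ _ at h5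
      rw [h7]
      rw [h6] at h5
      have h8 := dist_triangle (d g • x) (d g • q.1) (d (g * q.2 * (c.map Prod.snd).prod) • y)
      rw [dist_smul] at h8
      linarith
  · intro l hl hr y
    change d (artinWord M l) • y = _
    rw [delta_word d h1 h3 l hl hr]

/-- the folding -/
theorem IsCells.folding {X : Type*} [MetricSpace X] [MulAction W X] [IsIsometricSMul W X]
    (hc : IsCells cs cell) : ∃ d : ArtinGroup M → W,
    (∀ (T : Set B) (g h : ArtinGroup M) (y : X), h ∈ Apar M T → (∀ i ∈ T, cs.simple i • y = y) →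
      d (g * h) • y = d g • y) ∧
    (∀ (c : List (X × ArtinGroup M)) (g : ArtinGroup M) (x y : X), IsPath cs c →
      dist (d g • x) (d (g * (c.map Prod.snd).prod) • y) ≤ pathLen x c y) ∧
    d 1 = 1 ∧
    (∀ (i : B) (k : ℤ) (g : ArtinGroup M),
      (d (g * (PresentedGroup.of i : ArtinGroup M) ^ k) = d g ∨
        d (g * (PresentedGroup.of i : ArtinGroup M) ^ k) = d g * cs.simple i) ∧
      (k ≠ 0 → cs.length (d g) < cs.length (d g * cs.simple i) →
        d (g * (PresentedGroup.of i : ArtinGroup M) ^ k) = d g * cs.simple i)) ∧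
    ∀ l : List (B × ℤ), (∀ p ∈ l, p.2 ≠ 0) → cs.IsReduced (letters l) →
      d (artinWord M l) = cs.wordProd (letters l) := by
  obtain ⟨d, h1, h2, h0, h3⟩ := hc.exists_delta
  have hwd : ∀ (T : Set B) (g h : ArtinGroup M) (y : X), h ∈ Apar M T →
      (∀ i ∈ T, cs.simple i • y = y) → d (g * h) • y = d g • y := by
    intro T g h y hh hy
    obtain ⟨v, hv, h4⟩ := h2 T g h hh
    rw [h4, mul_smul, smul_of_mem' hy hv]
  refine ⟨d, hwd, ?_, h1, fun i k g => ⟨h0 i k g, h3 i k g⟩, fun l hl hr => delta_word d h1 h3 l hl hr⟩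
  intro c
  induction c with
  | nil =>
    intro g x y _
    change dist (d g • x) (d (g * 1) • y) ≤ dist x y
    rw [mul_one, dist_smul]
  | cons q c ih =>
    intro g x y hcp
    have hq : q.2 ∈ Apar M {i | cs.simple i • q.1 = q.1} := hcp q (by simp)
    have h5 := ih (g * q.2) q.1 y fun r hr => hcp r (List.mem_cons_of_mem _ hr)
    have h6 : d (g * q.2) • q.1 = d g • q.1 := hwd _ g q.2 q.1 hq fun i hi => hi
    have h7 : g * ((q :: c).map Prod.snd).prod = g * q.2 * (c.map Prod.snd).prod := by
      rw [List.map_cons, List.prod_cons, mul_assoc]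
    change dist (d g • x) (d (g * ((q :: c).map Prod.snd).prod) • y) ≤ dist x q.1 + pathLen q.1 c y
    rw [h7]
    rw [h6] at h5
    have h8 := dist_triangle (d g • x) (d g • q.1) (d (g * q.2 * (c.map Prod.snd).prod) • y)
    rw [dist_smul] at h8
    linarith

end Pool.Agent.Lib.MP_f146a9_al.DV
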