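import Mathlib
import Pool.Agent.Lib.MP_f146a9_al.Defs

/-!
MP_f146a9_al. Matrices for the braid groups: the Burau matrices at t = -1, triangular matrices, permutation
matrices, cells.
-/

namespace Pool.Agent.Lib.MP_f146a9_al.DV

/-- square matrices of size n + 1 over the rationals -/
abbrev Mat (n : ℕ) := Matrix (Fin (n + 1)) (Fin (n + 1)) ℚ

/-- the vector e_i + e_(i+1) -/
def uv {n : ℕ} (i : Fin n) : Fin (n + 1) → ℚ :=
  fun a => if a = i.castSucc then 1 else if a = i.succ then 1 else 0

/-- the covector e_i - e_(i+1) -/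
def fv {n : ℕ} (i : Fin n) : Fin (n + 1) → ℚ :=
  fun a => if a = i.castSucc then 1 else if a = i.succ then -1 else 0

/-- the transvection 1 + k (e_i + e_(i+1)) (e_i - e_(i+1)) -/
def gen {n : ℕ} (i : Fin n) (k : ℚ) : Mat n := 1 + k • Matrix.vecMulVec (uv i) (fv i)

/-- the matrix of a permutation -/
def pm {n : ℕ} (w : Equiv.Perm (Fin (n + 1))) : Mat n := Matrix.of fun a b => if a = w b then 1 else 0

/-- invertible upper triangular matrices -/
def UT {n : ℕ} (b : Mat n) : Prop := (∀ a c, c < a → b a c = 0) ∧ IsUnit b.det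

/-- the cell of a permutation -/
def Cell {n : ℕ} (x : Mat n) (w : Equiv.Perm (Fin (n + 1))) : Prop :=
  ∃ b c, UT b ∧ UT c ∧ x = b * pm w * c

end Pool.Agent.Lib.MP_f146a9_al.DV
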