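import Pool.Agent.Lib.MP_f146a9_al.DV.Ut

/-! Cells and the multiplication by a simple transposition: the case of a nonzero entry below the
diagonal. -/

namespace Pool.Agent.Lib.MP_f146a9_al.DV

private def Pi_X {n : ℕ} (p q : Fin (n + 1)) (t : ℚ) : Mat n :=
  Matrix.of fun e d => (if e = d then 1 else 0) + (if e = p then (if d = q then t else 0) else 0)

private theorem Pi_X_apply {n : ℕ} (p q : Fin (n + 1)) (t : ℚ) (e d : Fin (n + 1)) :
    Pi_X p q t e d =
      (if e = d then 1 else 0) + (if e = p then (if d = q then t else 0) else 0) := rfl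

private theorem Pi_mulX {n : ℕ} (x : Mat n) (p q : Fin (n + 1)) (t : ℚ) (a d : Fin (n + 1)) :
    (x * Pi_X p q t) a d = x a d + (if d = q then x a p * t else 0) := by
  rw [Matrix.mul_apply]
  simp only [Pi_X_apply, mul_add, Finset.sum_add_distrib, mul_ite, mul_one, mul_zero,
    Finset.sum_ite_eq', Finset.mem_univ, if_true]

private theorem Pi_X_inv {n : ℕ} {p q : Fin (n + 1)} (hpq : p ≠ q) (t : ℚ) :
    Pi_X p q t * Pi_X p q (-t) = 1 := by
  ext a d
  rw [Pi_mulX, Pi_X_apply, Pi_X_apply, Matrix.one_apply, if_neg hpq]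
  by_cases h1 : a = p <;> by_cases h2 : d = q <;> simp [h1, h2]

private theorem Pi_X_unit {n : ℕ} {p q : Fin (n + 1)} (hpq : p ≠ q) (t : ℚ) :
    IsUnit (Pi_X p q t).det := by
  have h1 := congrArg Matrix.det (Pi_X_inv hpq t)
  rw [Matrix.det_mul, Matrix.det_one] at h1
  exact IsUnit.of_mul_eq_one _ h1

private theorem Pi_pm_unit {n : ℕ} (w : Equiv.Perm (Fin (n + 1))) : IsUnit (pm w).det := by
  have h1 := congrArg Matrix.det (pm_mul w w⁻¹)
  rw [Matrix.det_mul, mul_inv_cancel, pm_one, Matrix.det_one] at h1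
  exact IsUnit.of_mul_eq_one _ h1.symm

theorem pi_up {n : ℕ} (i : Fin n) (x : Mat n)
    (hx : ∀ a c, c < a → ¬ (a = i.succ ∧ c = i.castSucc) → x a c = 0) (hd : IsUnit x.det)
    (h0 : x i.succ i.castSucc ≠ 0) (w : Equiv.Perm (Fin (n + 1))) (hw : w⁻¹ i.castSucc < w⁻¹ i.succ) :
    Cell (x * pm w) (Equiv.swap i.castSucc i.succ * w) := by
  have hlt : i.castSucc < i.succ := Fin.castSucc_lt_succ
  have hne : i.castSucc ≠ i.succ := hlt.ne
  have hgap : ∀ a : Fin (n + 1), i.castSucc < a → a ≠ i.succ → i.succ < a := by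
    intro a h1 h2
    rw [Fin.lt_def] at h1 ⊢
    have h3 : (a : ℕ) ≠ (i.succ : ℕ) := fun e => h2 (Fin.ext e)
    rw [Fin.val_castSucc] at h1
    rw [Fin.val_succ] at h3 ⊢
    omega
  generalize hp : i.castSucc = p at hx h0 hw hlt hne hgap
  generalize hq : i.succ = q at hx h0 hw hlt hne hgap
  set c : ℚ := x q q / x q p with hc
  set s : Equiv.Perm (Fin (n + 1)) := Equiv.swap p q with hs
  have hss : pm s * pm s = (1 : Mat n) := by
    rw [← pm_mul, hs, Equiv.swap_mul_self, pm_one]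
  have hXX : Pi_X p q (-c) * Pi_X p q c = (1 : Mat n) := by
    have := Pi_X_inv hne (-c)
    rwa [neg_neg] at this
  refine ⟨x * Pi_X p q (-c) * pm s, pm w⁻¹ * Pi_X p q c * pm w, ⟨?_, ?_⟩, ⟨?_, ?_⟩, ?_⟩
  · intro a d hda
    rw [mul_pm_apply, Pi_mulX]
    by_cases h1 : d = p
    · rw [h1, hs, Equiv.swap_apply_left, if_pos rfl]
      rw [h1] at hda
      by_cases h2 : a = q
      · rw [h2, hc]
        field_simp
        ring
      · have h3 := hgap a hda h2
        rw [hx a q h3 (fun e => h2 e.1), hx a p hda (fun e => h2 e.1)]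
        ring
    by_cases h2 : d = q
    · rw [h2, hs, Equiv.swap_apply_right, if_neg hne, add_zero]
      rw [h2] at hda
      exact hx a p (hlt.trans hda) (fun e => hda.ne' e.1)
    · rw [hs, Equiv.swap_apply_of_ne_of_ne h1 h2, if_neg h2, add_zero]
      exact hx a d hda (fun e => h1 e.2)
  · rw [Matrix.det_mul, Matrix.det_mul]
    exact (hd.mul (Pi_X_unit hne _)).mul (Pi_pm_unit s)
  · intro a d hda
    rw [mul_pm_apply, pm_mul_apply, inv_inv, Pi_X_apply, if_neg (fun e => hda.ne' (w.injective e)),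
      zero_add]
    by_cases h1 : w a = p
    · by_cases h2 : w d = q
      · exfalso
        have e1 : w⁻¹ (w a) = a := w.symm_apply_apply a
        have e2 : w⁻¹ (w d) = d := w.symm_apply_apply d
        rw [← h1, ← h2, e1, e2] at hw
        exact lt_asymm hw hda
      · rw [if_pos h1, if_neg h2]
    · rw [if_neg h1]
  · rw [Matrix.det_mul, Matrix.det_mul]
    exact ((Pi_pm_unit _).mul (Pi_X_unit hne _)).mul (Pi_pm_unit w)
  · have hww : pm w * pm w⁻¹ = (1 : Mat n) := by
      rw [← pm_mul, mul_inv_cancel, pm_one]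
    calc x * pm w = x * (Pi_X p q (-c) * Pi_X p q c) * pm w := by rw [hXX, mul_one]
      _ = x * Pi_X p q (-c) * 1 * 1 * Pi_X p q c * pm w := by
        rw [mul_one, mul_one, ← mul_assoc]
      _ = x * Pi_X p q (-c) * (pm s * pm s) * (pm w * pm w⁻¹) * Pi_X p q c * pm w := by
        rw [hss, hww]
      _ = x * Pi_X p q (-c) * pm s * pm (s * w) * (pm w⁻¹ * Pi_X p q c * pm w) := by
        rw [pm_mul]
        simp only [mul_assoc]

end Pool.Agent.Lib.MP_f146a9_al.DV
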