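import Pool.Agent.Lib.MP_f146a9_al.DV.Defs

/-!
MP_f146a9_al. Products and inverses of triangular matrices and permutation matrices.
-/

namespace Pool.Agent.Lib.MP_f146a9_al.DV

private theorem bt_of {n : ℕ} {b : Mat n} (hb : UT b) : Matrix.BlockTriangular b id :=
  fun i j h => hb.1 i j h

theorem ut_one {n : ℕ} : UT (1 : Mat n) :=
  ⟨fun _ _ h => Matrix.one_apply_ne h.ne', by rw [Matrix.det_one]; exact isUnit_one⟩

theorem ut_mul {n : ℕ} {b c : Mat n} (hb : UT b) (hc : UT c) : UT (b * c) :=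
  ⟨fun _ _ h => (Matrix.BlockTriangular.mul (bt_of hb) (bt_of hc)) h,
    by rw [Matrix.det_mul]; exact hb.2.mul hc.2⟩

theorem ut_inv {n : ℕ} {b : Mat n} (hb : UT b) : ∃ c : Mat n, UT c ∧ b * c = 1 ∧ c * b = 1 := by
  have := Matrix.invertibleOfIsUnitDet b hb.2
  refine ⟨b⁻¹, ⟨fun _ _ h => (Matrix.blockTriangular_inv_of_blockTriangular (bt_of hb)) h,
    Matrix.isUnit_nonsing_inv_det b hb.2⟩, Matrix.mul_nonsing_inv b hb.2,
    Matrix.nonsing_inv_mul b hb.2⟩

theorem ut_diag {n : ℕ} {b : Mat n} (hb : UT b) (a : Fin (n + 1)) : b a a ≠ 0 := by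
  have h := hb.2.ne_zero
  rw [Matrix.det_of_upperTriangular (bt_of hb)] at h
  exact Finset.prod_ne_zero_iff.1 h a (Finset.mem_univ a)

theorem mul_pm_apply {n : ℕ} (x : Mat n) (w : Equiv.Perm (Fin (n + 1))) (a b : Fin (n + 1)) :
    (x * pm w) a b = x a (w b) := by
  rw [Matrix.mul_apply]
  simp [pm]

theorem pm_mul_apply {n : ℕ} (x : Mat n) (w : Equiv.Perm (Fin (n + 1))) (a b : Fin (n + 1)) :
    (pm w * x) a b = x (w⁻¹ a) b := by
  rw [Matrix.mul_apply, Finset.sum_eq_single (w⁻¹ a)]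
  · simp [pm]
  · intro c _ hc
    have : a ≠ w c := fun h => hc (by rw [h]; simp)
    simp [pm, this]
  · intro h
    exact absurd (Finset.mem_univ _) h

theorem pm_one {n : ℕ} : pm (1 : Equiv.Perm (Fin (n + 1))) = 1 := by
  ext a b
  simp [pm, Matrix.one_apply]

theorem pm_mul {n : ℕ} (v w : Equiv.Perm (Fin (n + 1))) : pm (v * w) = pm v * pm w := by
  ext a b
  rw [mul_pm_apply]
  simp [pm]

end Pool.Agent.Lib.MP_f146a9_al.DV
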